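import Pool.Agent.W761.CP.Defs

set_option autoImplicit false

/-! CP-MAT: the matrix of the operator on the range of the projection. -/

namespace Pool.Agent.W196.CP

open Pool.Agent.W761.CP

theorem mat : Pool.Agent.W761.CP.S_MAT := by
  intro X _ _ _ H w T P h0 hT hP hfin hTP
  set Rg : Submodule ℂ X := LinearMap.range (P : X →ₗ[ℂ] X) with hRg
  have hmem : ∀ v : X, v ∈ Rg → P v = v := by
    rintro v ⟨v', rfl⟩
    exact hP v'
  have hmaps : ∀ v ∈ Rg, (T : X →ₗ[ℂ] X) v ∈ Rg := by
    rintro v ⟨v', rfl⟩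
    exact ⟨T v', (hTP v').symm⟩
  set S : Rg →ₗ[ℂ] Rg := (T : X →ₗ[ℂ] X).restrict hmaps with hS
  have hSapp : ∀ f : Rg, ((S f : Rg) : X) = T f := fun f => rfl
  have hker : Function.Injective S := by
    rw [← LinearMap.ker_eq_bot, LinearMap.ker_eq_bot']
    intro f hf
    have h1 : T (f : X) = 0 := by
      rw [← hSapp, hf]; rfl
    have h2 := hT.1 (f : X)
    rw [h1, smul_zero, add_zero] at h2
    exact Subtype.ext (h0 _ h2)
  set e : Rg ≃ₗ[ℂ] Rg := LinearEquiv.ofInjectiveEndo S hker with he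
  have heS : ∀ f : Rg, e f = S f := fun f => rfl
  set M : Rg →ₗ[ℂ] Rg := (e.symm : Rg →ₗ[ℂ] Rg) + w • LinearMap.id with hM
  have hMH : ∀ u : Rg, ((u : X), ((M u : Rg) : X)) ∈ H := by
    intro u
    have h1 := hT.1 ((e.symm u : Rg) : X)
    have h2 : T ((e.symm u : Rg) : X) = (u : X) := by
      rw [← hSapp, ← heS, LinearEquiv.apply_symm_apply]
    rw [h2] at h1
    exact h1
  have hinst : FiniteDimensional ℂ Rg := hfin
  set b := Module.finBasis ℂ Rg with hb
  refine ⟨fun j => ((b j : Rg) : X), LinearMap.toMatrix b b M, ?_, ?_, ?_, ?_⟩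
  · exact b.linearIndependent.map' Rg.subtype (Submodule.ker_subtype Rg)
  · intro j
    exact hmem _ (b j).2
  · intro j
    have h1 : M (b j) = ∑ l, (LinearMap.toMatrix b b M) l j • b l := by
      have h2 := Matrix.toLin_self b b (LinearMap.toMatrix b b M) j
      rw [Matrix.toLin_toMatrix] at h2
      exact h2
    have h3 : ((M (b j) : Rg) : X) = ∑ l, (LinearMap.toMatrix b b M) l j • ((b l : Rg) : X) := by
      rw [h1]
      simp
    rw [← h3]
    exact hMH (b j)
  · intro l hl
    have h1 : (LinearMap.charpoly M).IsRoot l := by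
      rw [LinearMap.charpoly_toMatrix] at hl
      exact (Polynomial.mem_roots'.1 hl).2
    have h2 : Module.End.HasEigenvalue M l :=
      (Module.End.hasEigenvalue_iff_isRoot_charpoly M l).2 h1
    obtain ⟨v, hv⟩ := h2.exists_hasEigenvector
    refine ⟨(v : X), ?_, hmem _ v.2, ?_⟩
    · intro hv0
      exact hv.2 (Subtype.ext hv0)
    · have h3 := hMH v
      rw [hv.apply_eq_smul] at h3
      exact h3

end Pool.Agent.W196.CP
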